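import Pool.Agent.W172.WG.Defs

/-!
# Project WG, parts V1 and V2: class V and dominated sequences
-/

set_option autoImplicit false

open Finset

namespace Pool.Agent.W991.WG

open Pool.Agent.W172.WG

/-- sum over phases -/
theorem phases (q : ℕ → ℕ) (hq0 : q 0 = 0) (hq : StrictMono q) (f : ℕ → ℝ) (S : ℕ) :
    ∑ k ∈ range (q S), f k = ∑ s ∈ range S, ∑ k ∈ Ico (q s) (q (s + 1)), f k := by
  induction S with
  | zero => simp [hq0]
  | succ S ih =>
    rw [sum_range_succ, ← ih, range_eq_Ico, range_eq_Ico]
    exact (Finset.sum_Ico_consecutive f (Nat.zero_le _) (hq.monotone (Nat.le_succ S))).symm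

theorem summable_of_phases (q : ℕ → ℕ) (hq0 : q 0 = 0) (hq : StrictMono q) (f : ℕ → ℝ)
    (hf : ∀ k, 0 ≤ f k) (g : ℕ → ℝ) (hg : Summable g) (hg0 : ∀ s, 0 ≤ g s)
    (h : ∀ s, ∑ k ∈ Ico (q s) (q (s + 1)), f k ≤ g s) : Summable f := by
  apply summable_of_sum_range_le hf (c := ∑' s, g s)
  intro n
  calc ∑ k ∈ range n, f k ≤ ∑ k ∈ range (q n), f k := by
        apply Finset.sum_le_sum_of_subset_of_nonneg
        · intro k hk
          rw [mem_range] at hk ⊢
          exact lt_of_lt_of_le hk (hq.id_le n)
        · intro k _ _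
          exact hf k
    _ = ∑ s ∈ range n, ∑ k ∈ Ico (q s) (q (s + 1)), f k := phases q hq0 hq f n
    _ ≤ ∑ s ∈ range n, g s := Finset.sum_le_sum fun s _ => h s
    _ ≤ ∑' s, g s := hg.sum_le_tsum _ fun s _ => hg0 s

theorem sqrt_two_pow_sq (s : ℕ) : (√2 ^ s) ^ 2 = (2 : ℝ) ^ s := by
  rw [← pow_mul, mul_comm, pow_mul, Real.sq_sqrt (by norm_num)]

theorem v1 : S_V1 := by
  classical
  intro t ht ⟨q, hq0, hq, h1, h2⟩
  have hex : ∀ k, ∃ s, k < q (s + 1) := fun k => ⟨k, lt_of_lt_of_le (Nat.lt_succ_self k)
    (hq.id_le (k + 1))⟩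
  let p : ℕ → ℕ := fun k => Nat.find (hex k)
  have hp : ∀ s k, q s ≤ k → k < q (s + 1) → p k = s := by
    intro s k h3 h4
    have h5 : p k ≤ s := Nat.find_min' (hex k) h4
    by_contra hne
    have h6 : p k < s := lt_of_le_of_ne h5 hne
    have h7 : k < q (p k + 1) := Nat.find_spec (hex k)
    have h8 : q (p k + 1) ≤ q s := hq.monotone h6
    omega
  have hp2 : ∀ k, k < q (p k + 1) := fun k => Nat.find_spec (hex k)
  have hp1 : ∀ k, q (p k) ≤ k := by
    intro k
    rcases Nat.eq_zero_or_pos (p k) with h | h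
    · rw [h, hq0]
      exact Nat.zero_le _
    · obtain ⟨m, hm⟩ : ∃ m, p k = m + 1 := ⟨p k - 1, by omega⟩
      have h3 : m < p k := by omega
      have h4 := Nat.find_min (hex k) h3
      rw [hm]
      push Not at h4
      exact h4
  have hr0 : (0 : ℝ) < √2 := Real.sqrt_pos.mpr (by norm_num)
  have hgap : ∀ s, (0 : ℝ) < (q (s + 1) : ℝ) - (q s : ℝ) := by
    intro s
    have : (q s : ℝ) < (q (s + 1) : ℝ) := by exact_mod_cast hq (Nat.lt_succ_self s)
    linarith
  let a : ℕ → ℝ := fun k => 2 * t k * (√2 ^ (p k + 1))⁻¹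
  let b : ℕ → ℝ := fun k => 2 * √2 ^ (p k + 1) / ((q (p k + 1) : ℝ) - (q (p k) : ℝ))
  let c : ℕ → ℝ := fun k => if k < q 1 then √(t k) else 0
  have ha0 : ∀ k, 0 ≤ a k := fun k => by
    have := ht k
    positivity
  have hb0 : ∀ k, 0 ≤ b k := fun k => by
    have := (hgap (p k)).le
    exact div_nonneg (by positivity) this
  have hc0 : ∀ k, 0 ≤ c k := fun k => by
    simp only [c]
    split_ifs
    · positivity
    · exact le_rfl
  refine ⟨fun k => a k + b k + c k, fun k => ?_, ?_, ?_⟩
  · have := ha0 k
    have := hb0 k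
    have := hc0 k
    linarith
  · -- square summable
    have hsa : Summable (fun k => a k ^ 2) := by
      apply summable_of_phases q hq0 hq _ (fun k => sq_nonneg _) _ (h2.mul_left 4)
      · intro s
        positivity
      · intro s
        calc ∑ k ∈ Ico (q s) (q (s + 1)), a k ^ 2
            = ∑ k ∈ Ico (q s) (q (s + 1)), 4 * (((2 : ℝ) ^ (s + 1))⁻¹ * t k ^ 2) := by
              apply Finset.sum_congr rfl
              intro k hk
              rw [mem_Ico] at hk
              simp only [a]
              rw [hp s k hk.1 hk.2, mul_pow, mul_pow, inv_pow, sqrt_two_pow_sq]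
              ring
          _ = 4 * (((2 : ℝ) ^ (s + 1))⁻¹ * ∑ k ∈ Ico (q s) (q (s + 1)), t k ^ 2) := by
              rw [Finset.mul_sum, Finset.mul_sum]
          _ ≤ 4 * (((2 : ℝ) ^ (s + 1))⁻¹ * ∑ k ∈ range (q (s + 1)), t k ^ 2) := by
              gcongr
              intro k hk
              rw [mem_Ico] at hk
              rw [mem_range]
              exact hk.2
    have hsb : Summable (fun k => b k ^ 2) := by
      apply summable_of_phases q hq0 hq _ (fun k => sq_nonneg _) _ (h1.mul_left 4)
      · intro s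
        have := (hgap s).le
        exact mul_nonneg (by norm_num) (div_nonneg (by positivity) this)
      · intro s
        apply le_of_eq
        calc ∑ k ∈ Ico (q s) (q (s + 1)), b k ^ 2
            = ∑ k ∈ Ico (q s) (q (s + 1)), 4 * (2 : ℝ) ^ (s + 1) /
                ((q (s + 1) : ℝ) - (q s : ℝ)) ^ 2 := by
              apply Finset.sum_congr rfl
              intro k hk
              rw [mem_Ico] at hk
              simp only [b]
              rw [hp s k hk.1 hk.2, div_pow, mul_pow, sqrt_two_pow_sq]
              norm_num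
          _ = 4 * ((2 : ℝ) ^ (s + 1) / ((q (s + 1) : ℝ) - (q s : ℝ))) := by
              rw [Finset.sum_const, Nat.card_Ico, nsmul_eq_mul,
                Nat.cast_sub (hq.monotone (Nat.le_succ s))]
              have := (hgap s).ne'
              field_simp
    have hsc : Summable (fun k => c k ^ 2) := by
      apply summable_of_ne_finset_zero (s := range (q 1))
      intro k hk
      rw [mem_range] at hk
      simp only [c]
      rw [if_neg hk]
      norm_num
    refine Summable.of_nonneg_of_le (fun k => sq_nonneg _) (fun k => ?_)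
      ((hsa.add (hsb.add hsc)).mul_left 3)
    nlinarith [sq_nonneg (a k - b k), sq_nonneg (b k - c k), sq_nonneg (a k - c k)]
  · intro k
    rcases Nat.eq_zero_or_pos (p k) with h | h
    · have hk : k < q 1 := by
        have := hp2 k
        rw [h] at this
        exact this
      have hck : c k = √(t k) := by
        simp only [c]
        rw [if_pos hk]
      have h3 : √(t k) ≤ a k + b k + c k := by
        rw [hck]
        linarith [ha0 k, hb0 k]
      have h4 : a k + b k + c k ≤ ∑ j ∈ range (k + 1), (a j + b j + c j) := by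
        apply Finset.single_le_sum (f := fun j => a j + b j + c j)
        · intro j _
          have := ha0 j
          have := hb0 j
          have := hc0 j
          linarith
        · rw [mem_range]
          exact Nat.lt_succ_self k
      calc t k = √(t k) * √(t k) := (Real.mul_self_sqrt (ht k)).symm
        _ ≤ (a k + b k + c k) * ∑ j ∈ range (k + 1), (a j + b j + c j) :=
          mul_le_mul h3 (h3.trans h4) (Real.sqrt_nonneg _) ((Real.sqrt_nonneg _).trans h3)
    · obtain ⟨m, hm⟩ : ∃ m, p k = m + 1 := ⟨p k - 1, by omega⟩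
      have hqk : q (m + 1) ≤ k := by
        have := hp1 k
        rw [hm] at this
        exact this
      have h3 : 2 * √2 ^ (m + 1) ≤ ∑ j ∈ range (k + 1), (a j + b j + c j) := by
        calc 2 * √2 ^ (m + 1) = ∑ j ∈ Ico (q m) (q (m + 1)), b j := by
              have h4 : ∑ j ∈ Ico (q m) (q (m + 1)), b j =
                  ∑ j ∈ Ico (q m) (q (m + 1)), 2 * √2 ^ (m + 1) /
                    ((q (m + 1) : ℝ) - (q m : ℝ)) := by
                apply Finset.sum_congr rfl
                intro j hj
                rw [mem_Ico] at hj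
                simp only [b]
                rw [hp m j hj.1 hj.2]
              rw [h4, Finset.sum_const, Nat.card_Ico, nsmul_eq_mul,
                Nat.cast_sub (hq.monotone (Nat.le_succ m))]
              have := (hgap m).ne'
              field_simp
          _ ≤ ∑ j ∈ Ico (q m) (q (m + 1)), (a j + b j + c j) := by
              apply Finset.sum_le_sum
              intro j _
              linarith [ha0 j, hc0 j]
          _ ≤ ∑ j ∈ range (k + 1), (a j + b j + c j) := by
              apply Finset.sum_le_sum_of_subset_of_nonneg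
              · intro j hj
                rw [mem_Ico] at hj
                rw [mem_range]
                omega
              · intro j _ _
                have := ha0 j
                have := hb0 j
                have := hc0 j
                linarith
      have h4 : 2 * t k * (√2 ^ (m + 2))⁻¹ ≤ a k + b k + c k := by
        have : a k = 2 * t k * (√2 ^ (m + 2))⁻¹ := by
          simp only [a]
          rw [hm]
        rw [← this]
        linarith [hb0 k, hc0 k]
      have h5 : 0 ≤ 2 * t k * (√2 ^ (m + 2))⁻¹ := by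
        have := ht k
        positivity
      calc t k ≤ (2 * t k * (√2 ^ (m + 2))⁻¹) * (2 * √2 ^ (m + 1)) := by
            have h6 : (2 * t k * (√2 ^ (m + 2))⁻¹) * (2 * √2 ^ (m + 1)) = t k * (4 / √2) := by
              rw [pow_succ √2 (m + 1)]
              field_simp
              ring
            rw [h6]
            have h7 : √2 ≤ 4 := by
              rw [Real.sqrt_le_left (by norm_num)]
              norm_num
            have h8 : 1 ≤ 4 / √2 := by
              rw [le_div_iff₀ hr0]
              linarith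
            have := ht k
            nlinarith
        _ ≤ (a k + b k + c k) * ∑ j ∈ range (k + 1), (a j + b j + c j) :=
          mul_le_mul h4 h3 (by positivity) (h5.trans h4)

theorem v2 : S_V2 := by
  classical
  intro t ht ⟨y, hy0, hy2, hty⟩
  -- the perturbed sequence
  let z : ℕ → ℝ := fun k => y k + 1 / ((k : ℝ) + 1)
  have hyz : ∀ k, y k ≤ z k := fun k => by
    simp only [z]
    have : (0 : ℝ) ≤ 1 / ((k : ℝ) + 1) := by positivity
    linarith
  have hz0 : ∀ k, 0 < z k := fun k => by
    simp only [z]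
    have := hy0 k
    positivity
  have hz2 : Summable (fun k => z k ^ 2) := by
    have h1 : Summable (fun k : ℕ => (1 / ((k : ℝ) + 1)) ^ 2) := by
      have h2 : Summable (fun k : ℕ => 1 / ((k : ℝ)) ^ 2) :=
        Real.summable_one_div_nat_pow.mpr one_lt_two
      have h3 := (summable_nat_add_iff 1).mpr h2
      refine h3.congr fun k => ?_
      push_cast
      rw [div_pow, one_pow]
    refine Summable.of_nonneg_of_le (fun k => sq_nonneg _) (fun k => ?_)
      ((hy2.add h1).mul_left 2)
    simp only [z]
    nlinarith [sq_nonneg (y k - 1 / ((k : ℝ) + 1))]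
  -- partial sums
  let P : ℕ → ℝ := fun m => ∑ j ∈ range m, z j
  have hP0 : P 0 = 0 := by simp [P]
  have hPs : ∀ m, P (m + 1) = P m + z m := fun m => by
    simp only [P]
    rw [sum_range_succ]
  have hPmono : Monotone P := monotone_nat_of_le_succ fun m => by
    rw [hPs]
    linarith [hz0 m]
  have htz : ∀ k, t k ≤ z k * P (k + 1) := by
    intro k
    refine (hty k).trans ?_
    have h1 : ∑ j ∈ range (k + 1), y j ≤ P (k + 1) :=
      Finset.sum_le_sum fun j _ => hyz j
    have h2 : 0 ≤ ∑ j ∈ range (k + 1), y j := Finset.sum_nonneg fun j _ => hy0 j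
    exact mul_le_mul (hyz k) h1 h2 (hz0 k).le
  have hPinf : Filter.Tendsto P Filter.atTop Filter.atTop := by
    have h1 : Filter.Tendsto (fun m => ∑ j ∈ range m, 1 / ((j : ℝ) + 1)) Filter.atTop
        Filter.atTop := by
      exact Real.tendsto_sum_range_one_div_nat_succ_atTop
    refine Filter.tendsto_atTop_mono (fun m => ?_) h1
    apply Finset.sum_le_sum
    intro j _
    simp only [z]
    linarith [hy0 j]
  -- bound of z
  set Q2 : ℝ := ∑' k, z k ^ 2 with hQ2
  have hzB : ∀ k, z k ^ 2 ≤ Q2 := fun k => hz2.le_tsum k (fun j _ => sq_nonneg _)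
  set B : ℝ := √Q2 with hB
  have hzB' : ∀ k, z k ≤ B := fun k => Real.le_sqrt_of_sq_le (hzB k)
  have hB1 : 1 ≤ B := by
    have h1 : 1 ≤ z 0 := by
      simp only [z]
      have := hy0 0
      norm_num
      exact this
    exact h1.trans (hzB' 0)
  set K : ℝ := 8 * B with hK
  have hr0 : (0 : ℝ) < √2 := Real.sqrt_pos.mpr (by norm_num)
  have hr1 : (1.4 : ℝ) ≤ √2 := by
    apply Real.le_sqrt_of_sq_le
    norm_num
  have hrpow : ∀ s : ℕ, 1 ≤ √2 ^ s := fun s => one_le_pow₀ (by linarith)
  have hex : ∀ s : ℕ, ∃ m, K * √2 ^ (s + 1) < P m := by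
    intro s
    obtain ⟨m, hm⟩ := (hPinf.eventually_gt_atTop (K * √2 ^ (s + 1))).exists
    exact ⟨m, hm⟩
  let q : ℕ → ℕ := fun s => match s with
    | 0 => 0
    | s + 1 => Nat.find (hex s)
  have hq0 : q 0 = 0 := rfl
  have hqs : ∀ s, K * √2 ^ (s + 1) < P (q (s + 1)) := fun s => Nat.find_spec (hex s)
  have hqu : ∀ s, P (q (s + 1)) ≤ K * √2 ^ (s + 1) + B := by
    intro s
    have hpos : 0 < q (s + 1) := by
      rcases Nat.eq_zero_or_pos (q (s + 1)) with h | h
      · have h1 := hqs s
        rw [h, hP0] at h1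
        have : 0 < K * √2 ^ (s + 1) := by positivity
        linarith
      · exact h
    obtain ⟨m, hm⟩ : ∃ m, q (s + 1) = m + 1 := ⟨q (s + 1) - 1, by omega⟩
    have h1 : ¬ K * √2 ^ (s + 1) < P m := by
      apply Nat.find_min (hex s)
      have : q (s + 1) = Nat.find (hex s) := rfl
      omega
    push Not at h1
    rw [hm, hPs]
    linarith [hzB' m]
  have hstep : ∀ s : ℕ, K * √2 ^ (s + 1) + B < K * √2 ^ (s + 2) := by
    intro s
    have h1 : K * √2 ^ (s + 2) = K * √2 ^ (s + 1) * √2 := by ring
    have h2 : 0 < K * √2 ^ (s + 1) := by positivity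
    have h3 : B ≤ K * √2 ^ (s + 1) * (1 / 8) := by
      have := hrpow (s + 1)
      rw [hK]
      nlinarith
    rw [h1]
    nlinarith
  have hqmono : StrictMono q := by
    apply strictMono_nat_of_lt_succ
    intro s
    rcases s with _ | s
    · rw [hq0]
      rcases Nat.eq_zero_or_pos (q (0 + 1)) with h | h
      · have h1 := hqs 0
        rw [h, hP0] at h1
        have : 0 < K * √2 ^ (0 + 1) := by positivity
        linarith
      · exact h
    · by_contra hcon
      push Not at hcon
      have h1 := hPmono hcon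
      have h2 := hqs (s + 1)
      have h3 := hqu s
      have h4 := hstep s
      have h5 : s + 1 + 1 = s + 2 := rfl
      linarith
  -- phase sums
  have hphase : ∀ s, P (q (s + 1)) - P (q s) = ∑ k ∈ Ico (q s) (q (s + 1)), z k := by
    intro s
    simp only [P]
    rw [Finset.sum_Ico_eq_sub _ (hqmono.monotone (Nat.le_succ s))]
  have hlow : ∀ s, √2 ^ s ≤ ∑ k ∈ Ico (q s) (q (s + 1)), z k := by
    intro s
    rw [← hphase]
    rcases s with _ | s
    · rw [hq0, hP0, pow_zero]
      have h1 := hqs 0
      have h2 := hrpow (0 + 1)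
      have h3 : 1 ≤ K * √2 ^ (0 + 1) := by
        rw [hK]
        nlinarith
      linarith
    · have h1 := hqs (s + 1)
      have h2 := hqu s
      have h3 := hrpow (s + 1)
      have h4 : K * √2 ^ (s + 1 + 1) = K * √2 ^ (s + 1) * √2 := by ring
      have h5 : 8 * √2 ^ (s + 1) ≤ K * √2 ^ (s + 1) := by
        rw [hK]
        nlinarith
      have h6 : B ≤ K * √2 ^ (s + 1) * (1 / 8) := by
        rw [hK]
        nlinarith
      nlinarith
  have hgap : ∀ s, (0 : ℝ) < (q (s + 1) : ℝ) - (q s : ℝ) := by
    intro s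
    have : (q s : ℝ) < (q (s + 1) : ℝ) := by exact_mod_cast hqmono (Nat.lt_succ_self s)
    linarith
  have hphz : ∀ S, ∑ s ∈ range S, ∑ k ∈ Ico (q s) (q (s + 1)), z k ^ 2 ≤ Q2 := by
    intro S
    rw [← phases q hq0 hqmono]
    exact hz2.sum_le_tsum _ fun k _ => sq_nonneg _
  refine ⟨q, hq0, hqmono, ?_, ?_⟩
  · apply summable_of_sum_range_le (c := 2 * Q2)
    · intro s
      have := (hgap s).le
      exact div_nonneg (by positivity) this
    · intro S
      calc ∑ s ∈ range S, (2 : ℝ) ^ (s + 1) / ((q (s + 1) : ℝ) - (q s : ℝ))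
          ≤ ∑ s ∈ range S, 2 * ∑ k ∈ Ico (q s) (q (s + 1)), z k ^ 2 := by
            apply Finset.sum_le_sum
            intro s _
            rw [div_le_iff₀ (hgap s)]
            have h1 := sq_sum_le_card_mul_sum_sq (s := Ico (q s) (q (s + 1))) (f := z)
            rw [Nat.card_Ico, Nat.cast_sub (hqmono.monotone (Nat.le_succ s))] at h1
            have h2 : (√2 ^ s) ^ 2 ≤ (∑ k ∈ Ico (q s) (q (s + 1)), z k) ^ 2 :=
              pow_le_pow_left₀ (by positivity) (hlow s) 2
            rw [sqrt_two_pow_sq] at h2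
            rw [pow_succ]
            nlinarith
        _ = 2 * ∑ s ∈ range S, ∑ k ∈ Ico (q s) (q (s + 1)), z k ^ 2 := by
            rw [Finset.mul_sum]
        _ ≤ 2 * Q2 := by
            have := hphz S
            linarith
  · apply summable_of_sum_range_le (c := 8 * K ^ 2 * Q2)
    · intro s
      positivity
    · intro S
      have hind : ∀ S, ∑ s ∈ range S, ((2 : ℝ) ^ (s + 1))⁻¹ * ∑ k ∈ range (q (s + 1)), t k ^ 2
          + ((2 : ℝ) ^ S)⁻¹ * ∑ k ∈ range (q S), t k ^ 2 =
          ∑ s ∈ range S, ((2 : ℝ) ^ s)⁻¹ * ∑ k ∈ Ico (q s) (q (s + 1)), t k ^ 2 := by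
        intro S
        induction S with
        | zero => simp [hq0]
        | succ S ih =>
          rw [sum_range_succ, sum_range_succ _ S]
          have h1 : ∑ k ∈ range (q (S + 1)), t k ^ 2 = ∑ k ∈ range (q S), t k ^ 2 +
              ∑ k ∈ Ico (q S) (q (S + 1)), t k ^ 2 := by
            rw [range_eq_Ico, range_eq_Ico]
            exact (Finset.sum_Ico_consecutive _ (Nat.zero_le _)
              (hqmono.monotone (Nat.le_succ S))).symm
          have h2 : ((2 : ℝ) ^ (S + 1))⁻¹ = ((2 : ℝ) ^ S)⁻¹ / 2 := by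
            rw [pow_succ, mul_inv]
            ring
          rw [← ih, h1, h2]
          ring
      have h1 := hind S
      have h2 : 0 ≤ ((2 : ℝ) ^ S)⁻¹ * ∑ k ∈ range (q S), t k ^ 2 := by positivity
      have h3 : ∑ s ∈ range S, ((2 : ℝ) ^ s)⁻¹ * ∑ k ∈ Ico (q s) (q (s + 1)), t k ^ 2 ≤
          ∑ s ∈ range S, 8 * K ^ 2 * ∑ k ∈ Ico (q s) (q (s + 1)), z k ^ 2 := by
        apply Finset.sum_le_sum
        intro s _
        have h4 : ∑ k ∈ Ico (q s) (q (s + 1)), t k ^ 2 ≤
            ∑ k ∈ Ico (q s) (q (s + 1)), (8 * K ^ 2 * 2 ^ s) * z k ^ 2 := by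
          apply Finset.sum_le_sum
          intro k hk
          rw [mem_Ico] at hk
          have h5 : P (k + 1) ≤ 2 * K * √2 ^ (s + 1) := by
            have h6 : P (k + 1) ≤ P (q (s + 1)) := hPmono hk.2
            have h7 := hqu s
            have h8 := hrpow (s + 1)
            have h9 : B ≤ K * √2 ^ (s + 1) := by
              rw [hK]
              nlinarith
            linarith
          have h6 : t k ≤ z k * (2 * K * √2 ^ (s + 1)) :=
            (htz k).trans (mul_le_mul_of_nonneg_left h5 (hz0 k).le)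
          calc t k ^ 2 ≤ (z k * (2 * K * √2 ^ (s + 1))) ^ 2 := pow_le_pow_left₀ (ht k) h6 2
            _ = 4 * K ^ 2 * (√2 ^ (s + 1)) ^ 2 * z k ^ 2 := by ring
            _ = (8 * K ^ 2 * 2 ^ s) * z k ^ 2 := by
                rw [sqrt_two_pow_sq, pow_succ]
                ring
        calc ((2 : ℝ) ^ s)⁻¹ * ∑ k ∈ Ico (q s) (q (s + 1)), t k ^ 2
            ≤ ((2 : ℝ) ^ s)⁻¹ * ∑ k ∈ Ico (q s) (q (s + 1)), (8 * K ^ 2 * 2 ^ s) * z k ^ 2 := by
              gcongr
          _ = 8 * K ^ 2 * ∑ k ∈ Ico (q s) (q (s + 1)), z k ^ 2 := by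
              rw [← Finset.mul_sum]
              have : (2 : ℝ) ^ s ≠ 0 := by positivity
              field_simp
      rw [← Finset.mul_sum] at h3
      have h4 := hphz S
      have h5 : 8 * K ^ 2 * ∑ s ∈ range S, ∑ k ∈ Ico (q s) (q (s + 1)), z k ^ 2 ≤
          8 * K ^ 2 * Q2 := mul_le_mul_of_nonneg_left h4 (by positivity)
      linarith

end Pool.Agent.W991.WG
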